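import Mathlib
import Pool.Agent.Helper24.GR.Defs
import Pool.Agent.Helper24.GR.Main

set_option autoImplicit false

namespace Pool.Agent.Results.MP_429025_co.AllDigraphs

open Pool.Agent.Helper24.GR

universe u v

/-- **Every digraph** `D` (of any cardinality, with parallel edges, without loops) has a
generalized cycle reversion whose result `D'` has generalized dichromatic number at most two:
`V` has a colouring with two colours without a monochromatic directed cycle and without a
monochromatic two-way infinite directed path of `D'`. -/
theorem result {V : Type u} {E : Type v} (D : Dig V E) :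
    ∃ D' : Dig V E, Reversion D D' ∧ ∃ c : V → Bool,
      (∀ n : ℕ, 2 ≤ n → ∀ (x : ZMod n → V) (a : ZMod n → E), Function.Injective x →
        (∀ i, D'.src (a i) = x i ∧ D'.tgt (a i) = x (i + 1)) → ∃ i j, c (x i) ≠ c (x j)) ∧
      (∀ (x : ℤ → V) (a : ℤ → E), Function.Injective x →
        (∀ i, D'.src (a i) = x i ∧ D'.tgt (a i) = x (i + 1)) → ∃ i j, c (x i) ≠ c (x j)) :=
  main D

end Pool.Agent.Results.MP_429025_co.AllDigraphs
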